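import Mathlib

set_option autoImplicit false

namespace Pool.Agent.Results.MP_79bc23_co.Cex

def IsCutset {P : Type} [PartialOrder P] (C : Set P) : Prop :=
  ∀ M : Set P, IsMaxChain (· ≤ ·) M → (M ∩ C).Nonempty

def IsChainCutsetFor {P : Type} [PartialOrder P] (x : P) (K : Set P) : Prop :=
  IsChain (· ≤ ·) K ∧ (∀ k ∈ K, ¬ k ≤ x ∧ ¬ x ≤ k) ∧ IsCutset (K ∪ {x})

def up : List ℕ := [32757, 31694, 31428, 28936, 32048, 28960, 27328, 18560, 28928, 8704, 19456,
  18432, 28672, 8192, 16384]

def kk : List ℕ := [2, 1, 272, 5, 6, 2054, 4112, 12304, 2052, 20480, 4100, 12288, 2112, 16384, 8192]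

def le (a b : Fin 15) : Bool := (up.getD a 0).testBit b

def K (x k : Fin 15) : Bool := (kk.getD x 0).testBit k

def Q : Type := Fin 15

instance : PartialOrder Q where
  le a b := le a b = true
  le_refl := show ∀ a : Fin 15, le a a = true by decide +kernel
  le_trans := show ∀ a b c : Fin 15, le a b = true → le b c = true → le a c = true by
    decide +kernel
  le_antisymm := show ∀ a b : Fin 15, le a b = true → le b a = true → a = b by decide +kernel

lemma key (p : Fin 15 → Prop) (h1 : ∀ i j, p i → p j → le i j = true ∨ le j i = true)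
    (h2 : ∀ v, (∀ i, p i → le i v = true ∨ le v i = true) → p v) (x : Fin 15) :
    ∃ i, p i ∧ (K x i = true ∨ i = x) := by
  have c : ∀ i j, ¬ (le i j = true ∨ le j i = true) → ¬ p i ∨ ¬ p j := fun i j h => by
    have := h1 i j; tauto
  have d : ∀ (v : Fin 15) (l : List (Fin 15)),
      (∀ i, i ∈ l ∨ le i v = true ∨ le v i = true) → p v ∨ ∃ i ∈ l, p i := fun v l h => by
    by_contra hh
    push Not at hh
    exact hh.1 (h2 v fun i hi => (h i).resolve_left fun hl => hh.2 i hl hi)
  have c0_1 := c 0 1 (by decide)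
  have c0_3 := c 0 3 (by decide)
  have c2_3 := c 2 3 (by decide)
  have c1_4 := c 1 4 (by decide)
  have c2_4 := c 2 4 (by decide)
  have c3_4 := c 3 4 (by decide)
  have c1_5 := c 1 5 (by decide)
  have c2_5 := c 2 5 (by decide)
  have c3_5 := c 3 5 (by decide)
  have c3_6 := c 3 6 (by decide)
  have c4_6 := c 4 6 (by decide)
  have c5_6 := c 5 6 (by decide)
  have c3_7 := c 3 7 (by decide)
  have c4_7 := c 4 7 (by decide)
  have c5_7 := c 5 7 (by decide)
  have c2_8 := c 2 8 (by decide)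
  have c6_8 := c 6 8 (by decide)
  have c7_8 := c 7 8 (by decide)
  have c3_9 := c 3 9 (by decide)
  have c4_9 := c 4 9 (by decide)
  have c5_9 := c 5 9 (by decide)
  have c7_9 := c 7 9 (by decide)
  have c8_9 := c 8 9 (by decide)
  have c1_10 := c 1 10 (by decide)
  have c2_10 := c 2 10 (by decide)
  have c3_10 := c 3 10 (by decide)
  have c5_10 := c 5 10 (by decide)
  have c6_10 := c 6 10 (by decide)
  have c7_10 := c 7 10 (by decide)
  have c8_10 := c 8 10 (by decide)
  have c9_10 := c 9 10 (by decide)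
  have c3_11 := c 3 11 (by decide)
  have c5_11 := c 5 11 (by decide)
  have c8_11 := c 8 11 (by decide)
  have c9_11 := c 9 11 (by decide)
  have c6_12 := c 6 12 (by decide)
  have c7_12 := c 7 12 (by decide)
  have c9_12 := c 9 12 (by decide)
  have c10_12 := c 10 12 (by decide)
  have c11_12 := c 11 12 (by decide)
  have c7_13 := c 7 13 (by decide)
  have c10_13 := c 10 13 (by decide)
  have c11_13 := c 11 13 (by decide)
  have c9_14 := c 9 14 (by decide)
  have c13_14 := c 13 14 (by decide)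
  have d0 := d 0 [1, 3] (by decide)
  have d1 := d 1 [0, 4, 5, 10] (by decide)
  have d2 := d 2 [3, 4, 5, 8, 10] (by decide)
  have d3 := d 3 [0, 2, 4, 5, 6, 7, 9, 10, 11] (by decide)
  have d4 := d 4 [1, 2, 3, 6, 7, 9] (by decide)
  have d5 := d 5 [1, 2, 3, 6, 7, 9, 10, 11] (by decide)
  have d6 := d 6 [3, 4, 5, 8, 10, 12] (by decide)
  have d7 := d 7 [3, 4, 5, 8, 9, 10, 12, 13] (by decide)
  have d8 := d 8 [2, 6, 7, 9, 10, 11] (by decide)
  have d9 := d 9 [3, 4, 5, 7, 8, 10, 11, 12, 14] (by decide)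
  have d10 := d 10 [1, 2, 3, 5, 6, 7, 8, 9, 12, 13] (by decide)
  have d11 := d 11 [3, 5, 8, 9, 12, 13] (by decide)
  have d12 := d 12 [6, 7, 9, 10, 11] (by decide)
  have d13 := d 13 [7, 10, 11, 14] (by decide)
  have d14 := d 14 [9, 13] (by decide)
  simp only [List.mem_cons, List.not_mem_nil, or_false, exists_eq_or_imp, exists_eq_left] at d0 d1 d2 d3 d4 d5 d6 d7 d8 d9 d10 d11 d12 d13 d14
  clear c d h1 h2
  have e0 : p 0 ∨ p 1 := by grind
  have e1 : p 1 ∨ p 0 := by grind
  have e2 : p 2 ∨ p 4 ∨ p 8 := by grind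
  have e3 : p 3 ∨ p 0 ∨ p 2 := by grind
  have e4 : p 4 ∨ p 1 ∨ p 2 := by grind
  have e5 : p 5 ∨ p 1 ∨ p 2 ∨ p 11 := by grind
  have e6 : p 6 ∨ p 4 ∨ p 12 := by grind
  have e7 : p 7 ∨ p 4 ∨ p 12 ∨ p 13 := by grind
  have e8 : p 8 ∨ p 2 ∨ p 11 := by grind
  have e9 : p 9 ∨ p 12 ∨ p 14 := by grind
  have e10 : p 10 ∨ p 2 ∨ p 12 := by grind
  have e11 : p 11 ∨ p 12 ∨ p 13 := by grind
  have e12 : p 12 ∨ p 6 ∨ p 11 := by grind
  have e13 : p 13 ∨ p 14 := by grind
  have e14 : p 14 ∨ p 13 := by grind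
  fin_cases x
  · rcases e0 with h | h <;> exact ⟨_, h, by decide⟩
  · rcases e1 with h | h <;> exact ⟨_, h, by decide⟩
  · rcases e2 with h | h | h <;> exact ⟨_, h, by decide⟩
  · rcases e3 with h | h | h <;> exact ⟨_, h, by decide⟩
  · rcases e4 with h | h | h <;> exact ⟨_, h, by decide⟩
  · rcases e5 with h | h | h | h <;> exact ⟨_, h, by decide⟩
  · rcases e6 with h | h | h <;> exact ⟨_, h, by decide⟩
  · rcases e7 with h | h | h | h <;> exact ⟨_, h, by decide⟩
  · rcases e8 with h | h | h <;> exact ⟨_, h, by decide⟩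
  · rcases e9 with h | h | h <;> exact ⟨_, h, by decide⟩
  · rcases e10 with h | h | h <;> exact ⟨_, h, by decide⟩
  · rcases e11 with h | h | h <;> exact ⟨_, h, by decide⟩
  · rcases e12 with h | h | h <;> exact ⟨_, h, by decide⟩
  · rcases e13 with h | h <;> exact ⟨_, h, by decide⟩
  · rcases e14 with h | h <;> exact ⟨_, h, by decide⟩

lemma kc : ∀ x a b : Fin 15, K x a = true → K x b = true → le a b = true ∨ le b a = true := by
  decide +kernel

lemma ki : ∀ x a : Fin 15, K x a = true → ¬ le a x = true ∧ ¬ le x a = true := by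
  decide +kernel

theorem result : ∃ (P : Type) (_ : PartialOrder P), Finite P ∧
    (∀ x : P, ∃ K : Set P, IsChainCutsetFor x K) ∧
    ∃ A : Set P, IsAntichain (· ≤ ·) A ∧ A.ncard = 5 := by
  classical
  refine ⟨Q, inferInstance, show Finite (Fin 15) from inferInstance, fun x => ?_, ?_⟩
  · refine ⟨{k : Fin 15 | K x k = true}, fun a ha b hb _ => kc x a b ha hb,
      fun k hk => ki x k hk, fun M hM => ?_⟩
    exact key (fun i => (i : Q) ∈ M)
      (fun i j hi hj => hM.1.total (r := (· ≤ · : Q → Q → Prop)) hi hj) (fun v hv => by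
        have : IsChain (· ≤ · : Q → Q → Prop) (insert v M) :=
          hM.1.insert fun b hb _ => (hv b hb).symm
        change (v : Q) ∈ M
        rw [hM.2 this (Set.subset_insert _ _)]
        exact Set.mem_insert _ _) x
  · refine ⟨(({3, 5, 7, 9, 10} : Finset (Fin 15)) : Set (Fin 15)), ?_, ?_⟩
    · have : ∀ a ∈ ({3, 5, 7, 9, 10} : Finset (Fin 15)), ∀ b ∈ ({3, 5, 7, 9, 10} : Finset (Fin 15)),
        a ≠ b → ¬ le a b = true := by decide +kernel
      exact fun a ha b hb hab => this a ha b hb hab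
    · exact (Set.ncard_coe_finset _).trans (by decide)

end Pool.Agent.Results.MP_79bc23_co.Cex
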